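import Mathlib

/-!
If the restriction of a tensor to a box has no shorter slice rank decomposition, then the
one-variable factors of a decomposition are spanned by slices through the box.
-/

set_option autoImplicit false
set_option linter.unusedSectionVars false

namespace Pool.Agent.V11186.SliceMain

open Finset

variable {D : Type} [Fintype D] [DecidableEq D] {Q : D → Type} {K : Type} [Field K]
variable {ι : Type} [Fintype ι] [DecidableEq ι]

/-- `f` does not depend on the coordinate `j`. -/
def Indep (j : D) (f : (∀ j, Q j) → K) : Prop := ∀ x z, f (Function.update x j z) = f x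

section

variable (s : ι → D) (a : ι → ∀ j, Q j → K) (X : ∀ j, Finset (Q j))

/-- A dual system for the factors. -/
def Dual (lam : ∀ j, Q j → ι → K) : Prop :=
  ∀ j i, s i = j → ∀ i', s i' = j →
    ∑ y ∈ X j, a i j y * lam j y i' = if i = i' then 1 else 0

/-- The interpolation functions. -/
def alpha (lam : ∀ j, Q j → ι → K) (j : D) (y q : Q j) : K :=
  ∑ i ∈ univ.filter (fun i => s i = j), lam j y i * a i j q

/-- Removal of the part of `f` which is in the span of the factors in direction `j`. -/
def L (lam : ∀ j, Q j → ι → K) (j : D) (f : (∀ j, Q j) → K) : (∀ j, Q j) → K := fun x =>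
  f x - ∑ y ∈ X j, alpha s a lam j y (x j) * f (Function.update x j y)

variable {s a X} {lam : ∀ j, Q j → ι → K}

lemma sum_alpha (h : Dual s a X lam) {j : D} {i : ι} (hi : s i = j) (q : Q j) :
    ∑ y ∈ X j, a i j y * alpha s a lam j y q = a i j q := by
  unfold alpha
  simp only [mul_sum]
  rw [sum_comm]
  have h1 : ∀ i' ∈ univ.filter (fun i => s i = j),
      ∑ y ∈ X j, a i j y * (lam j y i' * a i' j q) = if i = i' then a i' j q else 0 := by
    intro i' hi'
    rw [mem_filter] at hi'
    have h2 := h j i hi i' hi'.2
    calc ∑ y ∈ X j, a i j y * (lam j y i' * a i' j q)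
        = (∑ y ∈ X j, a i j y * lam j y i') * a i' j q := by
          rw [sum_mul]
          exact sum_congr rfl fun y _ => by ring
      _ = if i = i' then a i' j q else 0 := by
          rw [h2]
          split_ifs <;> simp
  rw [sum_congr rfl h1, sum_ite_eq, if_pos]
  rw [mem_filter]
  exact ⟨mem_univ _, hi⟩

/-- `L j` kills the products of a factor in direction `j` and a function not depending on `j`. -/
lemma L_kill (h : Dual s a X lam) {j : D} {i : ι} (hi : s i = j) {f : (∀ j, Q j) → K}
    (hf : Indep j f) : L s a X lam j (fun x => a i j (x j) * f x) = 0 := by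
  funext x
  change a i j (x j) * f x - ∑ y ∈ X j, alpha s a lam j y (x j) *
    (a i j ((Function.update x j y) j) * f (Function.update x j y)) = 0
  have h1 : ∑ y ∈ X j, alpha s a lam j y (x j) *
      (a i j ((Function.update x j y) j) * f (Function.update x j y)) =
      (∑ y ∈ X j, a i j y * alpha s a lam j y (x j)) * f x := by
    rw [sum_mul]
    apply sum_congr rfl
    intro y _
    rw [Function.update_self, hf]
    ring
  rw [h1, sum_alpha h hi, sub_self]

lemma L_mul {j j' : D} (hjj : j ≠ j') (c : Q j' → K) (f : (∀ j, Q j) → K) :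
    L s a X lam j (fun x => c (x j') * f x) = fun x => c (x j') * L s a X lam j f x := by
  funext x
  change c (x j') * f x - ∑ y ∈ X j, alpha s a lam j y (x j) *
    (c ((Function.update x j y) j') * f (Function.update x j y)) =
    c (x j') * (f x - ∑ y ∈ X j, alpha s a lam j y (x j) * f (Function.update x j y))
  rw [mul_sub, mul_sum]
  congr 1
  apply sum_congr rfl
  intro y _
  rw [Function.update_of_ne (Ne.symm hjj)]
  ring

lemma L_indep {j j' : D} (hjj : j ≠ j') {f : (∀ j, Q j) → K} (hf : Indep j' f) :
    Indep j' (L s a X lam j f) := by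
  intro x z
  unfold L
  rw [hf, Function.update_of_ne hjj]
  congr 1
  apply sum_congr rfl
  intro y _
  rw [Function.update_comm (Ne.symm hjj), hf]

lemma L_zero (j : D) : L s a X lam j (0 : (∀ j, Q j) → K) = 0 := by
  funext x
  simp [L]

lemma L_sum {κ : Type} (t : Finset κ) (j : D) (f : κ → (∀ j, Q j) → K) :
    L s a X lam j (fun x => ∑ i ∈ t, f i x) = fun x => ∑ i ∈ t, L s a X lam j (f i) x := by
  funext x
  unfold L
  rw [sum_sub_distrib]
  congr 1
  rw [sum_comm]
  apply sum_congr rfl
  intro y _
  rw [mul_sum]

/-- Apply `L` for all the coordinates of a list. -/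
def LL (s : ι → D) (a : ι → ∀ j, Q j → K) (X : ∀ j, Finset (Q j)) (lam : ∀ j, Q j → ι → K) :
    List D → ((∀ j, Q j) → K) → ((∀ j, Q j) → K)
  | [], f => f
  | j :: l, f => LL s a X lam l (L s a X lam j f)

lemma LL_zero (l : List D) : LL s a X lam l (0 : (∀ j, Q j) → K) = 0 := by
  induction l with
  | nil => rfl
  | cons j l ih =>
    change LL s a X lam l (L s a X lam j 0) = 0
    rw [L_zero, ih]

lemma LL_sum {κ : Type} (t : Finset κ) (l : List D) (f : κ → (∀ j, Q j) → K) :
    LL s a X lam l (fun x => ∑ i ∈ t, f i x) = fun x => ∑ i ∈ t, LL s a X lam l (f i) x := by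
  induction l generalizing f with
  | nil => rfl
  | cons j l ih =>
    change LL s a X lam l (L s a X lam j _) = _
    rw [L_sum, ih]
    rfl

lemma LL_kill (h : Dual s a X lam) {l : List D} {j : D} (hj : j ∈ l) {i : ι} (hi : s i = j)
    {f : (∀ j, Q j) → K} (hf : Indep j f) :
    LL s a X lam l (fun x => a i j (x j) * f x) = 0 := by
  induction l generalizing f with
  | nil => exact absurd hj (List.not_mem_nil)
  | cons j' l ih =>
    change LL s a X lam l (L s a X lam j' _) = _
    by_cases hjj : j' = j
    · subst hjj
      rw [L_kill h hi hf, LL_zero]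
    · rw [L_mul hjj, ih]
      · rcases List.mem_cons.1 hj with h1 | h1
        · exact absurd h1.symm hjj
        · exact h1
      · exact L_indep hjj hf

lemma LL_mul {l : List D} {j' : D} (hj : j' ∉ l) (c : Q j' → K) (f : (∀ j, Q j) → K) :
    LL s a X lam l (fun x => c (x j') * f x) = fun x => c (x j') * LL s a X lam l f x := by
  induction l generalizing f with
  | nil => rfl
  | cons j l ih =>
    rw [List.mem_cons, not_or] at hj
    change LL s a X lam l (L s a X lam j _) = _
    rw [L_mul (Ne.symm hj.1), ih hj.2]
    rfl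

lemma LL_indep {l : List D} {j' : D} (hj : j' ∉ l) {f : (∀ j, Q j) → K} (hf : Indep j' f) :
    Indep j' (LL s a X lam l f) := by
  induction l generalizing f with
  | nil => exact hf
  | cons j l ih =>
    rw [List.mem_cons, not_or] at hj
    exact ih hj.2 (L_indep (Ne.symm hj.1) hf)

/-- The slices of `f` in direction `j₀` through the box are in `U`. -/
def SliceIn (X : ∀ j, Finset (Q j)) (j₀ : D) (U : Submodule K (Q j₀ → K))
    (f : (∀ j, Q j) → K) : Prop :=
  ∀ x, (∀ j, j ≠ j₀ → x j ∈ X j) → (fun z => f (Function.update x j₀ z)) ∈ U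

lemma L_slice {j₀ j : D} (hj : j ≠ j₀) {U : Submodule K (Q j₀ → K)} {f : (∀ j, Q j) → K}
    (hf : SliceIn X j₀ U f) : SliceIn X j₀ U (L s a X lam j f) := by
  intro x hx
  have h1 : (fun z => L s a X lam j f (Function.update x j₀ z)) =
      (fun z => f (Function.update x j₀ z)) - ∑ y ∈ X j, alpha s a lam j y (x j) •
        (fun z => f (Function.update (Function.update x j y) j₀ z)) := by
    funext z
    rw [Pi.sub_apply, Finset.sum_apply]
    unfold L
    congr 1
    apply sum_congr rfl
    intro y _
    rw [Pi.smul_apply, smul_eq_mul, Function.update_of_ne hj, Function.update_comm (Ne.symm hj)]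
  rw [h1]
  apply U.sub_mem (hf x hx)
  apply U.sum_mem
  intro y hy
  apply U.smul_mem
  apply hf
  intro j' hj'
  by_cases h2 : j' = j
  · subst h2
    rw [Function.update_self]
    exact hy
  · rw [Function.update_of_ne h2]
    exact hx j' hj'

lemma LL_slice {j₀ : D} {l : List D} (hl : j₀ ∉ l) {U : Submodule K (Q j₀ → K)}
    {f : (∀ j, Q j) → K} (hf : SliceIn X j₀ U f) : SliceIn X j₀ U (LL s a X lam l f) := by
  induction l generalizing f with
  | nil => exact hf
  | cons j l ih =>
    rw [List.mem_cons, not_or] at hl
    exact ih hl.2 (L_slice (Ne.symm hl.1) hf)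

/-- `f` is a combination of the factors with index outside the direction `j₀`. -/
def Red (s : ι → D) (a : ι → ∀ j, Q j → K) (j₀ : D) (f : (∀ j, Q j) → K) : Prop :=
  ∃ g : ι → (∀ j, Q j) → K, (∀ i, Indep (s i) (g i)) ∧ (∀ i, s i = j₀ → g i = 0) ∧
    ∀ x, f x = ∑ i, a i (s i) (x (s i)) * g i x

lemma Red_add {j₀ : D} {f f' : (∀ j, Q j) → K} (h : Red s a j₀ f) (h' : Red s a j₀ f') :
    Red s a j₀ (fun x => f x + f' x) := by
  obtain ⟨g, hg, hg0, hgf⟩ := h
  obtain ⟨g', hg', hg0', hgf'⟩ := h'
  refine ⟨fun i x => g i x + g' i x, ?_, ?_, ?_⟩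
  · intro i x z
    change g i _ + g' i _ = g i _ + g' i _
    rw [hg, hg']
  · intro i hi
    funext x
    change g i x + g' i x = 0
    rw [hg0 i hi, hg0' i hi]
    simp
  · intro x
    change f x + f' x = ∑ i, a i (s i) (x (s i)) * (g i x + g' i x)
    rw [hgf, hgf', ← sum_add_distrib]
    exact sum_congr rfl fun i _ => by ring

lemma L_red {j₀ j : D} (hj : j ≠ j₀) (f : (∀ j, Q j) → K) :
    Red s a j₀ (fun x => f x - L s a X lam j f x) := by
  classical
  refine ⟨fun i x => if s i = j then ∑ y ∈ X j, lam j y i * f (Function.update x j y) else 0,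
    ?_, ?_, ?_⟩
  · intro i x z
    by_cases h : s i = j
    · simp only [if_pos h]
      apply sum_congr rfl
      intro y _
      subst h
      rw [Function.update_idem]
    · simp only [if_neg h]
  · intro i hi
    funext x
    have : s i ≠ j := by
      rw [hi]
      exact Ne.symm hj
    simp only [if_neg this]
    rfl
  · intro x
    have h1 : f x - L s a X lam j f x =
        ∑ y ∈ X j, alpha s a lam j y (x j) * f (Function.update x j y) := by
      unfold L
      ring
    change f x - L s a X lam j f x = ∑ i, a i (s i) (x (s i)) *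
      (if s i = j then ∑ y ∈ X j, lam j y i * f (Function.update x j y) else 0)
    rw [h1]
    have h2 : ∀ i, a i (s i) (x (s i)) *
        (if s i = j then ∑ y ∈ X j, lam j y i * f (Function.update x j y) else 0) =
        if s i = j then a i j (x j) * ∑ y ∈ X j, lam j y i * f (Function.update x j y) else 0 := by
      intro i
      by_cases h : s i = j
      · subst h
        simp
      · simp [h]
    simp only [h2]
    rw [← sum_filter]
    unfold alpha
    simp only [sum_mul, mul_sum]
    rw [sum_comm]
    apply sum_congr rfl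
    intro i _
    apply sum_congr rfl
    intro y _
    ring

lemma LL_red {j₀ : D} {l : List D} (hl : j₀ ∉ l) (f : (∀ j, Q j) → K) :
    Red s a j₀ (fun x => f x - LL s a X lam l f x) := by
  induction l generalizing f with
  | nil =>
    refine ⟨fun _ => 0, fun i x z => rfl, fun i _ => rfl, fun x => ?_⟩
    change f x - f x = _
    simp
  | cons j l ih =>
    rw [List.mem_cons, not_or] at hl
    have h1 := Red_add (L_red (X := X) (lam := lam) (Ne.symm hl.1) f)
      (ih hl.2 (L s a X lam j f))
    have h2 : (fun x => f x - LL s a X lam (j :: l) f x) = fun x =>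
        f x - L s a X lam j f x + (L s a X lam j f x - LL s a X lam l (L s a X lam j f) x) := by
      funext x
      change f x - LL s a X lam l (L s a X lam j f) x = _
      ring
    rw [h2]
    exact h1

end

/-- The main lemma. -/
theorem mem_span_slices (s : ι → D) (a : ι → ∀ j, Q j → K) (b : ι → (∀ j, Q j) → K)
    (T : (∀ j, Q j) → K) (X : ∀ j, Finset (Q j)) (hb : ∀ i, Indep (s i) (b i))
    (hT : ∀ x, T x = ∑ i, a i (s i) (x (s i)) * b i x)
    (hX : ∀ (i₁ : ι) (a' : ι → ∀ j, Q j → K) (b' : ι → (∀ j, Q j) → K),
      (∀ i, Indep (s i) (b' i)) →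
      ¬ ∀ x, (∀ j, x j ∈ X j) → T x = ∑ i ∈ univ.erase i₁, a' i (s i) (x (s i)) * b' i x)
    (j₀ : D) (i₁ : ι) (hi₁ : s i₁ = j₀) (U : Submodule K (Q j₀ → K))
    (hU : SliceIn X j₀ U T) : a i₁ j₀ ∈ U := by
  classical
  -- independence of the restricted factors, hence a dual system
  obtain ⟨lam, hlam⟩ : ∃ lam : ∀ j, Q j → ι → K, Dual s a X lam := by
    have key : ∀ j, ∃ lam : Q j → ι → K, ∀ i, s i = j → ∀ i', s i' = j →
        ∑ y ∈ X j, a i j y * lam y i' = if i = i' then 1 else 0 := by
      intro j
      let Φ : ({i // s i = j} → K) →ₗ[K] (X j → K) :=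
        { toFun := fun c y => ∑ i, c i * a i.1 j y.1
          map_add' := by
            intro c c'
            funext y
            simp only [Pi.add_apply, add_mul, sum_add_distrib]
          map_smul' := by
            intro t c
            funext y
            simp only [Pi.smul_apply, smul_eq_mul, mul_sum, RingHom.id_apply, mul_assoc] }
      have hΦ : LinearMap.ker Φ = ⊥ := by
        rw [LinearMap.ker_eq_bot']
        intro c hc
        by_contra hne
        obtain ⟨⟨i₂, hi₂⟩, hc2⟩ : ∃ i, c i ≠ 0 := by
          by_contra hcon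
          push Not at hcon
          exact hne (funext hcon)
        let c' : ι → K := fun i => if h : s i = j then c ⟨i, h⟩ / c ⟨i₂, hi₂⟩ else 0
        have hsum : ∀ y ∈ X j, ∑ i ∈ univ.filter (fun i => s i = j), c' i * a i j y = 0 := by
          intro y hy
          have h1 := congrFun hc ⟨y, hy⟩
          have h2 : ∑ i ∈ univ.filter (fun i => s i = j), c' i * a i j y =
              ∑ i : {i // s i = j}, c' i * a i.1 j y := by
            rw [← Finset.sum_subtype_eq_sum_filter, Finset.subtype_univ]
          rw [h2]
          have h3 : ∀ i : {i // s i = j}, c' i * a i.1 j y = (c ⟨i₂, hi₂⟩)⁻¹ * (c i * a i.1 j y) := by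
            intro i
            have : c' i = c i / c ⟨i₂, hi₂⟩ := by
              simp only [c', dif_pos i.2]
            rw [this]
            ring
          simp only [h3]
          rw [← mul_sum]
          have h4 : ∑ i : {i // s i = j}, c i * a i.1 j y = 0 := h1
          rw [h4, mul_zero]
        have hc'2 : c' i₂ = 1 := by
          simp only [c', dif_pos hi₂]
          exact div_self hc2
        refine hX i₂ a (fun i x => b i x - (if s i = j then c' i * b i₂ x else 0)) ?_ ?_
        · intro i x z
          by_cases h : s i = j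
          · simp only [if_pos h]
            have h5 := hb i x z
            have h6 : Indep (s i) (b i₂) := by
              rw [h, ← hi₂]
              exact hb i₂
            rw [h5, h6]
          · simp only [if_neg h]
            rw [hb]
        · intro x hx
          rw [hT]
          have h5 : ∑ i ∈ univ.filter (fun i => s i = j), c' i * a i j (x j) = 0 :=
            hsum (x j) (hx j)
          have h6 : ∑ i, a i (s i) (x (s i)) * (if s i = j then c' i * b i₂ x else 0) = 0 := by
            have h7 : ∀ i, a i (s i) (x (s i)) * (if s i = j then c' i * b i₂ x else 0) =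
                if s i = j then (c' i * a i j (x j)) * b i₂ x else 0 := by
              intro i
              by_cases h : s i = j
              · subst h
                simp only [if_true]
                ring
              · simp [h]
            simp only [h7]
            rw [← sum_filter, ← sum_mul, h5, zero_mul]
          have h8 : ∑ i, a i (s i) (x (s i)) * b i x =
              ∑ i, a i (s i) (x (s i)) * (b i x - (if s i = j then c' i * b i₂ x else 0)) := by
            simp only [mul_sub, sum_sub_distrib]
            rw [h6, sub_zero]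
          rw [h8, ← Finset.add_sum_erase _ _ (mem_univ i₂)]
          rw [if_pos hi₂, hc'2, one_mul, sub_self, mul_zero, zero_add]
      obtain ⟨Ψ, hΨ⟩ := LinearMap.exists_leftInverse_of_injective Φ hΦ
      refine ⟨fun y i => if h : y ∈ X j ∧ s i = j then
        Ψ (Pi.single ⟨y, h.1⟩ 1) ⟨i, h.2⟩ else 0, ?_⟩
      intro i hi i' hi'
      have h1 : Ψ (Φ (Pi.single ⟨i, hi⟩ 1)) = Pi.single ⟨i, hi⟩ 1 := by
        have := LinearMap.congr_fun hΨ (Pi.single ⟨i, hi⟩ 1)
        exact this
      have h2 : Φ (Pi.single ⟨i, hi⟩ 1) = ∑ y : X j, a i j y.1 • (Pi.single y 1 : X j → K) := by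
        funext y
        rw [Finset.sum_apply]
        change ∑ i₂ : {i // s i = j}, (Pi.single (⟨i, hi⟩ : {i // s i = j}) (1 : K) :
          {i // s i = j} → K) i₂ * a i₂.1 j y.1 = _
        rw [Finset.sum_eq_single (⟨i, hi⟩ : {i // s i = j})]
        · rw [Finset.sum_eq_single y]
          · simp
          · intro z _ hz
            simp [Ne.symm hz]
          · intro h
            exact absurd (mem_univ _) h
        · intro z _ hz
          rw [Pi.single_apply, if_neg hz, zero_mul]
        · intro h
          exact absurd (mem_univ _) h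
      rw [h2, map_sum] at h1
      have h3 := congrFun h1 ⟨i', hi'⟩
      rw [Finset.sum_apply] at h3
      simp only [map_smul, Pi.smul_apply, smul_eq_mul] at h3
      rw [← Finset.sum_coe_sort (X j)]
      have h4 : ∀ y : X j, a i j y.1 * (if h : y.1 ∈ X j ∧ s i' = j then
          Ψ (Pi.single ⟨y.1, h.1⟩ 1) ⟨i', h.2⟩ else 0) =
          a i j y.1 * Ψ (Pi.single y 1) ⟨i', hi'⟩ := by
        intro y
        rw [dif_pos ⟨y.2, hi'⟩]
      simp only [h4]
      rw [h3, Pi.single_apply]
      by_cases h5 : i = i'
      · subst h5
        simp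
      · rw [if_neg h5, if_neg]
        intro h6
        exact h5 (congrArg Subtype.val h6).symm
    choose lam hlam using key
    exact ⟨lam, fun j => hlam j⟩
  by_contra hcon
  obtain ⟨φ, hφ, hφU⟩ := Submodule.exists_dual_map_eq_bot_of_notMem hcon inferInstance
  have hφU' : ∀ u ∈ U, φ u = 0 := by
    intro u hu
    have : φ u ∈ U.map φ := ⟨u, hu, rfl⟩
    rw [hφU] at this
    exact this
  set l : List D := (univ.erase j₀).toList with hl
  have hj₀l : j₀ ∉ l := by
    rw [hl, mem_toList]
    exact notMem_erase _ _
  have hjl : ∀ j, j ≠ j₀ → j ∈ l := by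
    intro j hj
    rw [hl, mem_toList, mem_erase]
    exact ⟨hj, mem_univ _⟩
  let B := fun i => LL s a X lam l (b i)
  -- the image of `T`
  have hLT : LL s a X lam l T = fun x => ∑ i ∈ univ.filter (fun i => s i = j₀),
      a i j₀ (x j₀) * B i x := by
    have h1 : T = fun x => ∑ i, a i (s i) (x (s i)) * b i x := funext hT
    rw [h1, LL_sum]
    funext x
    rw [← Finset.sum_filter_add_sum_filter_not univ (fun i => s i = j₀)]
    have h2 : ∑ i ∈ univ.filter (fun i => ¬ s i = j₀),
        LL s a X lam l (fun x => a i (s i) (x (s i)) * b i x) x = 0 := by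
      apply sum_eq_zero
      intro i hi
      rw [mem_filter] at hi
      rw [LL_kill hlam (hjl _ hi.2) rfl (hb i)]
      rfl
    rw [h2, add_zero]
    apply sum_congr rfl
    intro i hi
    rw [mem_filter] at hi
    obtain ⟨-, rfl⟩ := hi
    rw [LL_mul hj₀l]
  have hslice := LL_slice (s := s) (a := a) (lam := lam) hj₀l hU
  -- the relation between the images
  have hrel : ∀ x, (∀ j, j ≠ j₀ → x j ∈ X j) →
      ∑ i ∈ univ.filter (fun i => s i = j₀), φ (a i j₀) * B i x = 0 := by
    intro x hx
    have h1 := hφU' _ (hslice x hx)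
    rw [hLT] at h1
    have h2 : (fun z => (fun x => ∑ i ∈ univ.filter (fun i => s i = j₀),
        a i j₀ (x j₀) * B i x) (Function.update x j₀ z)) =
        ∑ i ∈ univ.filter (fun i => s i = j₀), B i x • a i j₀ := by
      funext z
      rw [Finset.sum_apply]
      apply sum_congr rfl
      intro i hi
      rw [mem_filter] at hi
      have h3 : Indep j₀ (B i) := LL_indep hj₀l (by
        rw [← hi.2]
        exact hb i)
      rw [Function.update_self, h3, Pi.smul_apply, smul_eq_mul, mul_comm]
    rw [h2, map_sum] at h1
    rw [← h1]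
    apply sum_congr rfl
    intro i _
    rw [map_smul, smul_eq_mul, mul_comm]
  let c : ι → K := fun i => φ (a i j₀) / φ (a i₁ j₀)
  have hc1 : c i₁ = 1 := div_self hφ
  let b' : (∀ j, Q j) → K := fun x => ∑ i ∈ univ.filter (fun i => s i = j₀), c i * b i x
  have hLb' : ∀ x, (∀ j, j ≠ j₀ → x j ∈ X j) → LL s a X lam l b' x = 0 := by
    intro x hx
    have h1 : LL s a X lam l b' = fun x => ∑ i ∈ univ.filter (fun i => s i = j₀),
        LL s a X lam l (fun x => c i * b i x) x := LL_sum _ _ _
    have h2 : ∀ i, LL s a X lam l (fun x => c i * b i x) = fun x => c i * B i x := by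
      intro i
      exact LL_mul hj₀l (fun _ => c i) (b i)
    rw [h1]
    simp only [h2]
    have h3 := hrel x hx
    have h4 : ∀ i, c i * B i x = (φ (a i₁ j₀))⁻¹ * (φ (a i j₀) * B i x) := by
      intro i
      simp only [c]
      ring
    simp only [h4]
    rw [← mul_sum, h3, mul_zero]
  obtain ⟨g, hg, hg0, hgf⟩ := LL_red (s := s) (a := a) (X := X) (lam := lam) hj₀l b'
  have hb'g : ∀ x, (∀ j, j ≠ j₀ → x j ∈ X j) →
      b' x = ∑ i, a i (s i) (x (s i)) * g i x := by
    intro x hx
    have h1 : b' x - LL s a X lam l b' x = ∑ i, a i (s i) (x (s i)) * g i x := hgf x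
    rw [hLb' x hx, sub_zero] at h1
    exact h1
  -- the shorter decomposition
  refine hX i₁ (fun i j q => if h : j = j₀ then a i j q - c i * a i₁ j q else a i j q)
    (fun i x => if s i = j₀ then b i x else b i x + a i₁ j₀ (x j₀) * g i x) ?_ ?_
  · intro i x z
    by_cases h : s i = j₀
    · simp only [if_pos h]
      exact hb i x z
    · simp only [if_neg h]
      rw [hb, hg, Function.update_of_ne (Ne.symm h)]
  · intro x hx
    have hx' : ∀ j, j ≠ j₀ → x j ∈ X j := fun j _ => hx j
    have e1 : ∑ i ∈ univ.erase i₁, (if h : s i = j₀ then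
        a i (s i) (x (s i)) - c i * a i₁ (s i) (x (s i)) else a i (s i) (x (s i))) *
        (if s i = j₀ then b i x else b i x + a i₁ j₀ (x j₀) * g i x) =
        ∑ i, (if h : s i = j₀ then
        a i (s i) (x (s i)) - c i * a i₁ (s i) (x (s i)) else a i (s i) (x (s i))) *
        (if s i = j₀ then b i x else b i x + a i₁ j₀ (x j₀) * g i x) := by
      rw [← Finset.add_sum_erase _ _ (mem_univ i₁), dif_pos hi₁, hc1, one_mul, sub_self, zero_mul,
        zero_add]
    rw [e1, hT]
    have e2 : ∀ i, (if h : s i = j₀ then
        a i (s i) (x (s i)) - c i * a i₁ (s i) (x (s i)) else a i (s i) (x (s i))) *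
        (if s i = j₀ then b i x else b i x + a i₁ j₀ (x j₀) * g i x) =
        a i (s i) (x (s i)) * b i x - (if s i = j₀ then c i * b i x * a i₁ j₀ (x j₀) else 0) +
        (a i (s i) (x (s i)) * g i x) * a i₁ j₀ (x j₀) := by
      intro i
      by_cases h : s i = j₀
      · have h0 : g i x = 0 := by
          rw [hg0 i h]
          rfl
        rw [h0]
        subst h
        simp only [if_true, dite_true]
        ring
      · rw [dif_neg h, if_neg h, if_neg h]
        ring
    simp only [e2]
    rw [sum_add_distrib, sum_sub_distrib, ← sum_mul, ← hb'g x hx', ← sum_filter, ← sum_mul]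
    ring

end Pool.Agent.V11186.SliceMain
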